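import Mathlib
import Pool.Agent.H29.LPPDefs
import Pool.Agent.H29.LPP

set_option autoImplicit false

namespace Pool.Agent.Results.MP_df70bc_co.Counter

open Pool.Agent.H29.LPP

theorem result : ∃ (F : Type) (_ : Field F) (_ : Fintype F), Fintype.card F = 7 ∧
    (∃ P : MvPolynomial (Fin 10) F, IsReducedForm (fn 9) P) ∧
    ∀ P : MvPolynomial (Fin 10) F, IsReducedForm (fn 9) P →
      P.totalDegree < 10 * (Fintype.card F - 2) :=
  ⟨ZMod 7, inferInstance, inferInstance, ZMod.card 7, exists_red _,
    fun P h => by simpa using deg_lt P h⟩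

end Pool.Agent.Results.MP_df70bc_co.Counter
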